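import Pool.Agent.Lib.MP_baa74b_lc.Lower

namespace Pool.Agent.Results.MP_baa74b_lc.Hierarchy

open scoped ENNReal
open Pool.Agent.Lib.MP_baa74b_lc

/-- For every memory size `μ` and every finite search space with more than `16 (μ+2)^2` points there
is a finite class `F` with `C_{μ+1}(F) < C_μ(F)`; in fact `C_{μ+1}(F) ≤ μ + 2` and
`C_μ(F) ≥ |S| / (16 (μ+2))`. -/
theorem result (μ : ℕ) (S : Type) [Fintype S] (hS : 16 * (μ + 2) ^ 2 < Fintype.card S) :
    ∃ F : Set (S → ℝ), F.Finite ∧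
      complexity S (μ + 1) F < complexity S μ F ∧
      complexity S (μ + 1) F ≤ (μ : ℝ≥0∞) + 2 ∧
      (Fintype.card S : ℝ≥0∞) / (16 * ((μ : ℝ≥0∞) + 2)) ≤ complexity S μ F := by
  classical
  obtain ⟨h⟩ : Nonempty (Fin (μ + 1) ↪ S) :=
    Function.Embedding.nonempty_of_card_le (by rw [Fintype.card_fin]; nlinarith)
  obtain ⟨m, hm⟩ := exists_lower h.injective hS
  have hup := upper m h.injective
  refine ⟨cls h m, ?_, lt_of_le_of_lt hup (lt_of_lt_of_le ?_ hm), hup, hm⟩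
  · refine (Set.finite_range fun gw : Tab h m × (Fin μ → Fin m) => f1 h m gw.1 gw.2).subset ?_
    rintro f ⟨g, w, rfl⟩
    exact ⟨(g, w), rfl⟩
  · rw [ENNReal.lt_div_iff_mul_lt (Or.inl (by simp)) (Or.inl (by finiteness))]
    have : ((16 * (μ + 2) ^ 2 : ℕ) : ℝ≥0∞) < (Fintype.card S : ℝ≥0∞) := by exact_mod_cast hS
    refine lt_of_eq_of_lt ?_ this
    push_cast
    ring

end Pool.Agent.Results.MP_baa74b_lc.Hierarchy
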